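import Pool.Agent.Helper66.PD.Stmts

set_option autoImplicit false

namespace Pool.Agent.Helper66.PD

theorem st_HGT : ST_HGT := by
  classical
  intro P _ _ h hP
  let F : P → Finset (Finset P) := fun x =>
    Finset.univ.filter fun s => IsChain (· ≤ ·) (s : Set P) ∧ x ∈ s ∧ ∀ y ∈ s, y ≤ x
  have hF1 : ∀ x, ({x} : Finset P) ∈ F x := by
    intro x
    simp [F]
  have h1 : ∀ x, 1 ≤ (F x).sup Finset.card := by
    intro x
    have := Finset.le_sup (f := Finset.card) (hF1 x)
    simpa using this
  have h2 : ∀ x, (F x).sup Finset.card ≤ h := fun x =>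
    Finset.sup_le fun s hs => hP s (Finset.mem_filter.1 hs).2.1
  refine ⟨fun x => (F x).sup Finset.card - 1, ?_, fun x => ?_⟩
  · intro x y hxy
    obtain ⟨s, hs, hsup⟩ := Finset.exists_mem_eq_sup (F x) ⟨_, hF1 x⟩ Finset.card
    obtain ⟨-, hc, hx, hle⟩ := Finset.mem_filter.1 hs
    have hy : y ∉ s := fun hys => absurd hxy (not_lt_of_ge (hle y hys))
    have hmem : insert y s ∈ F y := by
      refine Finset.mem_filter.2 ⟨Finset.mem_univ _, ?_, Finset.mem_insert_self _ _, ?_⟩
      · rw [Finset.coe_insert]
        refine hc.insert ?_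
        intro b hb _
        exact Or.inr ((hle b hb).trans hxy.le)
      · intro z hz
        rcases Finset.mem_insert.1 hz with rfl | hz
        · exact le_rfl
        · exact (hle z hz).trans hxy.le
    have h3 := Finset.le_sup (f := Finset.card) hmem
    rw [Finset.card_insert_of_notMem hy] at h3
    have := h1 x
    simp only
    omega
  · have := h1 x
    have := h2 x
    simp only
    omega

end Pool.Agent.Helper66.PD
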